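import Mathlib
import Pool.Agent.Lib.MP_ca1492_al.Alg.Defs

/-!
# MP_ca1492_al, module Fr/FreeP: permutations of the words of a submodule
-/

namespace CA1492

open TensorProduct

variable {D : Dat}

/-- No arrows between the letters of l. -/
def NoArr (D : Dat) (l : List D.J) : Prop := ∀ x ∈ l, ∀ y ∈ l, D.arr x y = false

theorem NoArr.perm {l l' : List D.J} (h : NoArr D l) (hp : l.Perm l') : NoArr D l' :=
  fun x hx y hy => h x (hp.mem_iff.2 hx) y (hp.mem_iff.2 hy)

theorem FreeP_get {n : ℕ} (w : Wd D n) (L : List D.J) (h : List.ofFn w = L) (i : Fin n) :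
    L[i.val]? = some (w i) := by
  rw [← h]
  simp

/-- The word of the list with two neighbours exchanged. -/
theorem FreeP_swap {n : ℕ} (w w' : Wd D n) (a l : List D.J) (x y : D.J)
    (hw : List.ofFn w = a ++ y :: x :: l) (hw' : List.ofFn w' = a ++ x :: y :: l)
    (hr : a.length + 1 < n) :
    w ⟨a.length, by omega⟩ = y ∧ w ⟨a.length + 1, hr⟩ = x ∧ w' = w ∘ sw n a.length := by
  have hy : w ⟨a.length, by omega⟩ = y := by
    have := FreeP_get w _ hw ⟨a.length, by omega⟩
    rw [List.getElem?_append_right (le_refl _)] at this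
    simpa using this.symm
  have hx : w ⟨a.length + 1, hr⟩ = x := by
    have := FreeP_get w _ hw ⟨a.length + 1, hr⟩
    rw [List.getElem?_append_right (by simp)] at this
    simpa using this.symm
  have hx' : w' ⟨a.length, by omega⟩ = x := by
    have := FreeP_get w' _ hw' ⟨a.length, by omega⟩
    rw [List.getElem?_append_right (le_refl _)] at this
    simpa using this.symm
  have hy' : w' ⟨a.length + 1, hr⟩ = y := by
    have := FreeP_get w' _ hw' ⟨a.length + 1, hr⟩
    rw [List.getElem?_append_right (by simp)] at this
    simpa using this.symm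
  refine ⟨hy, hx, ?_⟩
  funext i
  show w' i = w (sw n a.length i)
  unfold sw
  rw [dif_pos hr]
  by_cases h1 : i = ⟨a.length, by omega⟩
  · rw [h1, Equiv.swap_apply_left, hx, hx']
  by_cases h2 : i = ⟨a.length + 1, hr⟩
  · rw [h2, Equiv.swap_apply_right, hy, hy']
  rw [Equiv.swap_apply_of_ne_of_ne h1 h2]
  have g := FreeP_get w _ hw i
  have g' := FreeP_get w' _ hw' i
  have n1 : i.val ≠ a.length := fun h => h1 (Fin.ext h)
  have n2 : i.val ≠ a.length + 1 := fun h => h2 (Fin.ext h)
  rcases lt_or_ge i.val a.length with h | h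
  · rw [List.getElem?_append_left h] at g g'
    rw [g] at g'
    exact (Option.some_inj.1 g').symm
  · rw [List.getElem?_append_right h] at g g'
    obtain ⟨k, hk⟩ : ∃ k, i.val - a.length = k + 2 := ⟨i.val - a.length - 2, by omega⟩
    rw [hk] at g g'
    rw [List.getElem?_cons_succ, List.getElem?_cons_succ] at g g'
    rw [g] at g'
    exact (Option.some_inj.1 g').symm

theorem FreeP_aux {n : ℕ} (V : Type) [AddCommGroup V] [Module ℂ V] [Module (R D n) V]
    [IsScalarTower ℂ (R D n) V] (X : Submodule (R D n) V) (l l' : List D.J) (hp : l.Perm l') :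
    ∀ (a : List D.J), NoArr D (a ++ l) → ∀ (w w' : Wd D n), List.ofFn w = a ++ l →
      List.ofFn w' = a ++ l' →
      (∃ x ∈ X, (ew w : R D n) • x ≠ 0) → ∃ x ∈ X, (ew w' : R D n) • x ≠ 0 := by
  induction hp with
  | nil =>
    intro a _ w w' hw hw' hx
    have : w = w' := List.ofFn_injective (hw.trans hw'.symm)
    rw [← this]
    exact hx
  | cons x _ ih =>
    intro a hf w w' hw hw' hx
    refine ih (a ++ [x]) ?_ w w' ?_ ?_ hx
    · simpa using hf
    · simpa using hw
    · simpa using hw'
  | swap x y l =>
    intro a hf w w' hw hw' hx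
    by_cases hxy : x = y
    · have : w = w' := List.ofFn_injective (by rw [hw, hw', hxy])
      rw [← this]
      exact hx
    · have hlen : n = a.length + (l.length + 1 + 1) := by
        have := congrArg List.length hw
        simpa using this
      have hr : a.length + 1 < n := by omega
      obtain ⟨h1, h2, h3⟩ := FreeP_swap w w' a l x y hw hw' hr
      obtain ⟨v, hv, hne⟩ := hx
      refine ⟨(ps a.length : R D n) • v, X.smul_mem _ hv, ?_⟩
      intro h0
      apply hne
      have e1 : (ps a.length : R D n) * ew w = ew w' * ps a.length := by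
        rw [h3]
        exact (isRep_R D n).S_E a.length w
      have e2 : (ps a.length : R D n) * ps a.length * ew w = ew w := by
        have := (isRep_R D n).S_S a.length hr w
        rw [h1, h2] at this
        rw [this, if_neg (Ne.symm hxy), if_neg, if_neg]
        · rw [hf x (by simp) y (by simp)]
          simp
        · rw [hf y (by simp) x (by simp)]
          simp
      have e3 : (ew w : R D n) • v = (ps a.length : R D n) • (ew w' : R D n) •
          (ps a.length : R D n) • v := by
        rw [← mul_smul, ← mul_smul, mul_assoc, ← e1, ← mul_assoc, e2]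
      rw [e3, h0, smul_zero]
  | trans h1 h2 ih1 ih2 =>
    rename_i l₁ l₂ l₃
    intro a hf w w' hw hw' hx
    obtain ⟨w₂, hw₂⟩ : ∃ w₂ : Wd D n, List.ofFn w₂ = a ++ l₂ := by
      have hlen : (a ++ l₂).length = n := by
        have := congrArg List.length hw
        have h3 := h1.length_eq
        simp at this ⊢
        omega
      subst hlen
      exact ⟨(a ++ l₂).get, List.ofFn_get _⟩
    refine ih2 a ?_ w₂ w' hw₂ hw' (ih1 a hf w w₂ hw hw₂ hx)
    exact hf.perm (h1.append_left a)

/-- Words of a submodule can be permuted.
PROOF: prove by induction on the permutation `l.Perm l'` the statement: for all initial lists a and all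
words w, w' with List.ofFn w = a ++ l, List.ofFn w' = a ++ l' (and NoArr for the whole list): if
`ew w • x ≠ 0` for some x ∈ X, then the same for w'. Cases nil: w = w'. cons: initial list a ++ [x].
trans: take a word for the middle list (it has the same length n). swap x y: w' = w ∘ sw n r with
r = a.length; x = y: w = w'. x ≠ y: `ps r * (ps r * ew w) = ew w` (S_S, no arrows), so
`ps r • ew w • x ≠ 0`, and it equals `ew w' • ps r • x` (S_E). -/
theorem perm_word {n : ℕ} (V : Type) [AddCommGroup V] [Module ℂ V] [Module (R D n) V]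
    [IsScalarTower ℂ (R D n) V] (X : Submodule (R D n) V) (l l' : List D.J) (hp : l.Perm l')
    (hf : NoArr D l) (w w' : Wd D n) (hw : List.ofFn w = l) (hw' : List.ofFn w' = l')
    (hx : ∃ x ∈ X, (ew w : R D n) • x ≠ 0) : ∃ x ∈ X, (ew w' : R D n) • x ≠ 0 := by
  exact FreeP_aux V X l l' hp [] hf w w' hw hw' hx

end CA1492
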