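import Mathlib
import Pool.Agent.Lib.MP_ca1492_al.D6.Obj
import Pool.Agent.Lib.MP_ca1492_al.Mod.RMod
import Pool.Agent.Lib.MP_ca1492_al.Mod.VVb

/-!
# MP_ca1492_al, module Fr/Conv: `IsProd` (Mod/RMod) and `prodK` (D6/Obj)
-/

namespace CA1492

open TensorProduct

variable {D : Dat} {n : ℕ}

/-- An `RMod` as a `KObj`. -/
def RMod.k (M : RMod D n) : KObj D := ⟨n, M.V⟩

/-- PROOF: `KIso.mk`; conversely `cases` (the ranks are equal, the module structures agree). -/
theorem riso_iff (M N : RMod D n) : RIso M N ↔ KIso M.k N.k := by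
  constructor
  · rintro ⟨e⟩
    exact KIso.mk n M.V N.V e
  · intro h
    unfold RMod.k at h
    cases h with
    | mk m V W e => exact ⟨e⟩

/-- PROOF: `subst h`. -/
theorem cast_k {m : ℕ} (h : m = n) (M : RMod D m) : (M.cast h).k = M.k := by
  subst h
  rfl

/-- The module `V(∅)` is one-dimensional, and all one-dimensional modules over `R D 0` are isomorphic
to it. PROOF: `VV_basis`, `card_Sq`; `R_induction` (as in `IsProd.unique`). -/
theorem kl_nil (M : RMod D 0) : Module.finrank ℂ M.V = 1 ↔ KIso M.k (KL ([] : List D.J)) := by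
  have h0 : ∀ w : Wd D 0, Module.finrank ℂ (VV w 0) = 1 := by
    intro w
    obtain ⟨b, -⟩ := VV_basis w
    rw [Module.finrank_eq_card_basis b, card_Sq]
    rfl
  have h1 : Module.finrank ℂ (VV (([] : List D.J).get : Wd D 0) 0) = 1 := h0 _
  have h2 : KIso M.k (KL ([] : List D.J)) ↔
      RIso M (⟨VV (([] : List D.J).get : Wd D 0) 0⟩ : RMod D 0) :=
    (riso_iff M (⟨VV (([] : List D.J).get : Wd D 0) 0⟩ : RMod D 0)).symm
  rw [h2]
  constructor
  · intro h
    obtain ⟨e⟩ := Module.nonempty_linearEquiv_of_finrank_eq_one h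
    obtain ⟨e'⟩ := Module.nonempty_linearEquiv_of_finrank_eq_one h1
    exact RMod_iso_zero M _ (e.symm.trans e')
  · rintro ⟨e⟩
    rw [(RMod_eC M _ e).finrank_eq]
    exact h1

/-- PROOF: induction on L with the three cases of `IsProd` and `prodK`; `cast_k`, `riso_iff`,
`kl_nil`, `KIso.ind`; `(A.ind N).k = KInd A.k N.k` by rfl. -/
theorem isProd_iff (L : List (Σ m, RMod D m)) (M : RMod D n) :
    IsProd D L n M ↔ KIso M.k (prodK (L.map (fun A => A.2.k))) := by
  induction L generalizing n M with
  | nil =>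
    constructor
    · rintro ⟨h0, h1⟩
      subst h0
      exact (kl_nil M).1 h1
    · intro h
      have h0 : n = 0 := h.m_eq
      subst h0
      exact ⟨rfl, (kl_nil M).2 h⟩
  | cons A L ih =>
    obtain ⟨a, A⟩ := A
    cases L with
    | nil =>
      constructor
      · rintro ⟨h0, h1⟩
        change a = n at h0
        subst h0
        exact (riso_iff M A).1 h1
      · intro h
        have h0 : n = a := h.m_eq
        subst h0
        exact ⟨rfl, (riso_iff M A).2 h⟩
    | cons B L =>
      constructor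
      · rintro ⟨k, N, h0, h1, h2⟩
        change a + k = n at h0
        subst h0
        have h3 : KIso M.k (A.ind N).k := (riso_iff M (A.ind N)).1 h2
        exact h3.trans ((KIso.refl A.k).ind ((ih N).1 h1))
      · intro h
        obtain ⟨P, hP⟩ : ∃ P, P = prodK ((B :: L).map (fun A => A.2.k)) := ⟨_, rfl⟩
        have h' : KIso M.k (KInd A.k P) := by
          rw [hP]
          exact h
        have h0 : n = a + P.m := h'.m_eq
        subst h0
        have h4 : IsProd D (B :: L) P.m (⟨P.V⟩ : RMod D P.m) := by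
          rw [ih, ← hP]
          exact KIso.refl P
        exact ⟨P.m, ⟨P.V⟩, rfl, h4, (riso_iff M (A.ind ⟨P.V⟩)).2 h'⟩

/-- Every `KObj` isomorphic to something of rank n comes from an `RMod`. -/
theorem exists_rmod (A : KObj D) (h : A.m = n) : ∃ M : RMod D n, M.k = A := by
  subst h
  exact ⟨⟨A.V⟩, rfl⟩

end CA1492
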