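import Mathlib
import Pool.Agent.Lib.MP_ca1492_al.Mod.LSet
import Pool.Agent.Lib.MP_ca1492_al.Mod.VVb

/-!
# MP_ca1492_al, module Fr/FreeA: words of `V(w)`, common eigenvectors
-/

namespace CA1492

open TensorProduct

variable {D : Dat}

theorem FreeA_sw {n : ℕ} (r : ℕ) (w : Wd D n) :
    (List.ofFn (w ∘ sw n r)).Perm (List.ofFn w) :=
  Equiv.Perm.ofFn_comp_perm (sw n r) w

theorem FreeA_cyW {n : ℕ} (p : ℕ) : ∀ (q : ℕ) (w : Wd D n),
    (List.ofFn (cyW w p q)).Perm (List.ofFn w)
  | 0, w => List.Perm.refl _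
  | q + 1, w => by
    unfold cyW
    split_ifs
    · exact (FreeA_cyW p q _).trans (FreeA_sw q w)
    · exact List.Perm.refl _

theorem FreeA_shW {n : ℕ} (m : ℕ) (p : ℕ → ℕ) : ∀ (k : ℕ) (w : Wd D n),
    (List.ofFn (shW m k p w)).Perm (List.ofFn w)
  | 0, w => List.Perm.refl _
  | k + 1, w => (FreeA_cyW (p k) (m + k) _).trans (FreeA_shW m p k w)

/-- The words of V(w) are permutations of w.
PROOF: `VV_basis`, `CS_ew`: ew w' • (CQ p • v1) = CQ p • v1 if w' = shW 0 n (sqFun p) w and 0 otherwise;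
shW is a permutation of w (`cyW` is defined by compositions with `sw`). -/
theorem wt_VV {n : ℕ} (w w' : Wd D n) (x : VV w n) (hx : (ew w' : R D n) • x ≠ 0) :
    (List.ofFn w').Perm (List.ofFn w) := by
  classical
  obtain ⟨b, hb⟩ := VV_basis w
  by_contra hcon
  apply hx
  have hact : ∀ p, (ew w' : R D n) • b p = 0 := by
    intro p
    obtain ⟨c1, -⟩ := CS_ew (D := D) (n := n) 0 n (sqFun p) w
    rw [hb, ← Submodule.Quotient.mk_smul, smul_eq_mul]
    have e1 : (ew w' * (CQ p * ew w) : R D n) = 0 := by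
      change ew w' * (CS 0 n (sqFun p) * ew w) = 0
      rw [c1, ← mul_assoc, (isRep_R D n).E_mul, if_neg, zero_mul]
      intro h
      apply hcon
      rw [h]
      exact FreeA_shW 0 (sqFun p) n w
    rw [e1, Submodule.Quotient.mk_zero]
  have h1 : act (VV w n) (ew w' : R D n) = 0 := by
    refine b.ext fun p => ?_
    rw [act_apply, hact]
    rfl
  have h2 : act (VV w n) (ew w' : R D n) x = 0 := by
    rw [h1]
    rfl
  exact h2

theorem FreeA_posNe : PosNe (Units.mk0 (2 : ℂ) two_ne_zero) :=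
  ⟨2, by norm_num, by norm_num, by simp⟩

/-- A common eigenvector in a submodule of V(w).
PROOF: `LSet_common` for E = act (ew w'), Y k = act (yk k) on V(w), restricted to X: use that X is
finite dimensional, stable, and the yk are nilpotent on V(w) (`yk_nilpotent` for the FObj `VF lam w`,
lam = 2); apply it on the vector space X (restrictScalars ℂ) or use the powers of yk inside X. -/
theorem common_VV {n : ℕ} (w w' : Wd D n) (X : Submodule (R D n) (VV w n))
    (hx : ∃ x ∈ X, (ew w' : R D n) • x ≠ 0) :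
    ∃ s ∈ X, s ≠ 0 ∧ (ew w' : R D n) • s = s ∧ ∀ k, (yk k : R D n) • s = 0 := by
  obtain ⟨x, hxX, hne⟩ := hx
  have hnil : ∀ k : Fin n, IsNilpotent (act X (yk k : R D n)) := by
    intro k
    obtain ⟨N, hN⟩ := yk_nilpotent FreeA_posNe (VF (Units.mk0 (2 : ℂ) two_ne_zero) w) k
    refine ⟨N, ?_⟩
    have h1 : ∀ v : VV w n, ((yk k : R D n) ^ N) • v = 0 := by
      intro v
      have h2 : act (VV w n) ((yk k : R D n) ^ N) v = 0 := by
        rw [map_pow]
        exact congrArg (fun f : Module.End ℂ (VV w n) => f v) hN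
      exact h2
    rw [← map_pow]
    refine LinearMap.ext fun v => Subtype.ext ?_
    exact h1 v.1
  have hEx : act X (ew w' : R D n) (⟨(ew w' : R D n) • x, X.smul_mem _ hxX⟩ : X) =
      ⟨(ew w' : R D n) • x, X.smul_mem _ hxX⟩ := by
    refine Subtype.ext ?_
    change (ew w' : R D n) • ((ew w' : R D n) • x) = (ew w' : R D n) • x
    rw [← mul_smul, (isRep_R D n).E_mul, if_pos rfl]
  obtain ⟨s, h1, h2, h3⟩ := LSet_common (act X (ew w' : R D n))
    (fun k => act X (yk k : R D n)) hnil
    (fun k l => by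
      change act X _ * act X _ = act X _ * act X _
      rw [← map_mul, ← map_mul, (isRep_R D n).Y_Y])
    (fun k => by
      change act X _ * act X _ = act X _ * act X _
      rw [← map_mul, ← map_mul, (isRep_R D n).Y_E])
    ⟨(ew w' : R D n) • x, X.smul_mem _ hxX⟩
    (by
      intro h
      exact hne (congrArg Subtype.val h)) hEx Finset.univ
  refine ⟨s.1, s.2, fun h => h1 (Subtype.ext h), congrArg Subtype.val h2, fun k => ?_⟩
  exact congrArg Subtype.val (h3 k (Finset.mem_univ k))

end CA1492
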