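import Mathlib
import Pool.Agent.Lib.MP_ca1492_al.Fr.FreeA
import Pool.Agent.Lib.MP_ca1492_al.Mod.ChSh
import Pool.Agent.Lib.MP_ca1492_al.Mod.Ind

/-!
# MP_ca1492_al, module Fr/FreeB: the block part
-/

namespace CA1492

open TensorProduct

variable {D : Dat}

/-- positions in front of all moved letters -/
theorem FreeB_lt {n : ℕ} (M k : ℕ) (p : ℕ → ℕ) (w : Wd D n) (hn : M + k ≤ n)
    (hp : ∀ l < k, p l ≤ M + l) (j : Fin n) (hj : ∀ l < k, j.val < p l) :
    shW M k p w j = w j := by
  induction k with
  | zero => rfl
  | succ k ih =>
    rw [shW, cyW_apply _ (hp k (Nat.lt_succ_self k)) (by omega),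
      if_pos (Or.inl (hj k (Nat.lt_succ_self k)))]
    exact ih (by omega) (fun l hl => hp l (by omega)) (fun l hl => hj l (by omega))

/-- the first letter of the second word -/
theorem FreeB_first {n : ℕ} (m k : ℕ) (p : ℕ → ℕ) (w : Wd D n) (hn : m + (k + 1) ≤ n)
    (hp : IsSh m (k + 1) p) (h0 : p 0 < n) :
    shW m (k + 1) p w ⟨p 0, h0⟩ = w ⟨m, by omega⟩ := by
  obtain ⟨hp1, hp2⟩ := hp
  have hm := hp1 0 (Nat.succ_pos k)
  have hlt : ∀ l < k, p 0 < p (l + 1) := by
    intro l
    induction l with
    | zero => exact fun hl => hp2 0 (by omega)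
    | succ l ih => exact fun hl => (ih (by omega)).trans (hp2 (l + 1) (by omega))
  rw [(sh_first w m k p).1, FreeB_lt (m + 1) k _ _ (by omega)
    (fun l hl => by have := hp1 (l + 1) (by omega); omega) _ hlt,
    cyW_apply w (by omega : p 0 ≤ m) (by omega), if_neg (by simp only; omega), if_pos rfl]

/-- The part of word i^m u in V(i^m) ∘ V(u), i not in u, is in the image of V(i^m) ⊗ V(u).
PROOF: F = ∑_p CS (shf p) • indIn (F p) (`Ind_ext`), decompose F p by words (c₁, c₂) of
V(i^m) ⊗ V(u): c₁ = i^m, c₂ a permutation of u (`wt_VV`); ew w • CS p • indIn (E_c t) = 0 unless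
shW m k (shf p) (append c₁ c₂) = w = i^m u (`CS_ew`, `Ind_ew_indIn`). If p ≠ id then the first letter of
c₂ is moved to a position < m, where w has the letter i, contradiction to i ∉ c₂ (position p 0 < m of
the shuffled word has the letter c₂ 0, unless m = 0 ...: the letters of c₂ are at the positions p j;
p ≠ id gives p 0 < m). So F p = 0 for p ≠ id. -/
theorem first_block {m k : ℕ} (i : D.J) (u : Wd D k) (hi : ∀ j, u j ≠ i)
    (F : IndV D m k (VV (fun _ : Fin m => i) m) (VV u k))
    (hF : (ew (Fin.append (fun _ : Fin m => i) u) : R D (m + k)) • F = F) :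
    ∃ t, F = indIn (VV (fun _ : Fin m => i) m) (VV u k) t := by
  have key : ∀ p : Shf m k, p ≠ shfId m k → F p = 0 := by
    intro p hp
    have h1 := Ind_ew_apply (VV (fun _ : Fin m => i) m) (VV u k)
      (Fin.append (fun _ : Fin m => i) u) F p
    rw [hF, Ind_P_apply] at h1
    rw [h1]
    refine Finset.sum_eq_zero fun c _ => ?_
    split_ifs with hc
    · by_contra hne
      have hperm : (List.ofFn c.2).Perm (List.ofFn u) := by
        by_contra hnp
        apply hne
        have hz : ∀ x : VV u k, (ew c.2 : R D k) • x = 0 := by
          intro x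
          by_contra hx
          exact hnp (wt_VV u c.2 x hx)
        have hz' : ∀ t, Ind_E (VV (fun _ : Fin m => i) m) (VV u k) c t = 0 := by
          intro t
          induction t using TensorProduct.induction_on with
          | zero => exact map_zero _
          | tmul x y =>
            unfold Ind_E
            rw [tens_tmul, hz, TensorProduct.tmul_zero]
          | add x y hx hy => rw [map_add, hx, hy, add_zero]
        exact hz' _
      have hlet : ∀ j, c.2 j ≠ i := by
        intro j hj
        have h2 : i ∈ List.ofFn u := by
          rw [← hperm.mem_iff, ← hj]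
          exact (List.mem_ofFn' _ _).2 ⟨j, rfl⟩
        obtain ⟨l, hl⟩ := (List.mem_ofFn' _ _).1 h2
        exact hi l hl
      have hk : ∃ k', k = k' + 1 := by
        cases k with
        | zero =>
          exfalso
          apply hp
          apply Subtype.ext
          funext j
          exact j.elim0
        | succ k' => exact ⟨k', rfl⟩
      obtain ⟨k', rfl⟩ := hk
      have hsh := isSh_shf p
      have hlt : shf p 0 < m := by
        by_contra hge
        apply hp
        have hall : ∀ j, j < k' + 1 → shf p j = m + j := by
          intro j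
          induction j with
          | zero =>
            intro hj
            have := hsh.1 0 hj
            omega
          | succ j ih =>
            intro hj
            have a1 := ih (by omega)
            have a2 := hsh.2 j (by omega)
            have a3 := hsh.1 (j + 1) hj
            omega
        apply Subtype.ext
        funext j
        apply Fin.ext
        have a4 := hall j.val j.isLt
        unfold shf at a4
        rw [dif_pos j.isLt] at a4
        exact a4
      have h3 := FreeB_first m k' (shf p) (Fin.append c.1 c.2 : Wd D (m + (k' + 1))) le_rfl hsh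
        (by omega)
      rw [hc] at h3
      have e1 : (⟨shf p 0, by omega⟩ : Fin (m + (k' + 1))) =
          Fin.castAdd (k' + 1) ⟨shf p 0, hlt⟩ := rfl
      have e2 : (⟨m, by omega⟩ : Fin (m + (k' + 1))) = Fin.natAdd m 0 := rfl
      rw [e1, e2, Fin.append_left, Fin.append_right] at h3
      exact hlet 0 h3.symm
    · rfl
  refine ⟨F (shfId m k), funext fun p => ?_⟩
  by_cases hp : p = shfId m k
  · rw [hp, Ind_indIn_id]
  · rw [key p hp, Ind_indIn_ne _ _ _ p hp]

end CA1492
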