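import Mathlib
import Pool.Agent.Lib.MP_ca1492_al.D6.VIndA
import Pool.Agent.Lib.MP_ca1492_al.Mod.NHb

/-!
# MP_ca1492_al, module Fr/FreeX: extraction
-/

namespace CA1492

open TensorProduct

variable {D : Dat}

/-- Extraction from V(i^m) ⊗ W.
PROOF: t = ∑_p (CQ p • v1) ⊗ b p (`VV_basis`), some b p ≠ 0. `nh_extract` and `nh_low` for
Z = V(i^m) ⊗ W, ρ x = act x ⊗ 1 and the vectors v1 ⊗ b p. -/
theorem extract {m : ℕ} (i : D.J) (W : Type) [AddCommGroup W] [Module ℂ W]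
    (t : VV (fun _ : Fin m => i) m ⊗[ℂ] W) (ht : t ≠ 0) :
    ∃ (x : R D m) (b : W), b ≠ 0 ∧
      (LinearMap.rTensor W (act (VV (fun _ : Fin m => i) m) x)) t = v1 (fun _ : Fin m => i) ⊗ₜ b := by
  classical
  set V := VV (fun _ : Fin m => i) m with hV
  obtain ⟨b, hb⟩ := VV_basis (D := D) (fun _ : Fin m => i)
  obtain ⟨c, hc⟩ := TensorProduct.eq_repr_basis_left b t
  let ρ : R D m →ₐ[ℂ] Module.End ℂ (V ⊗[ℂ] W) :=
    (Module.End.rTensorAlgHom ℂ V W).comp (act V)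
  have hρ : ∀ (x : R D m), ρ x = LinearMap.rTensor W (act V x) := fun x => rfl
  have hρt : ∀ (x : R D m) (a : V) (w : W), ρ x (a ⊗ₜ w) = (x • a) ⊗ₜ w := fun x a w => rfl
  have hb1 : ∀ p, b p = (CQ p : R D m) • v1 (fun _ : Fin m => i) := by
    intro p
    rw [hb, ← (v1_rel (D := D) (fun _ : Fin m => i)).1]
    unfold v1
    rw [← Submodule.Quotient.mk_smul, ← Submodule.Quotient.mk_smul, smul_eq_mul, smul_eq_mul,
      mul_one]
  have ht' : t = ∑ p : Sq m, ρ (CQ p) (v1 (fun _ : Fin m => i) ⊗ₜ c p) := by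
    rw [← hc, Finsupp.sum_fintype]
    · refine Finset.sum_congr rfl fun p _ => ?_
      rw [hρt, hb1]
    · intro p
      rw [TensorProduct.tmul_zero]
  have hne : ∃ p, (v1 (fun _ : Fin m => i) ⊗ₜ c p : V ⊗[ℂ] W) ≠ 0 := by
    by_contra h
    push Not at h
    apply ht
    rw [ht']
    refine Finset.sum_eq_zero fun p _ => ?_
    rw [h p, map_zero]
  have he : ∀ p, ρ (ew (fun _ => i)) (v1 (fun _ : Fin m => i) ⊗ₜ c p) =
      v1 (fun _ : Fin m => i) ⊗ₜ c p := by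
    intro p
    rw [hρt, (v1_rel (D := D) (fun _ : Fin m => i)).1]
  have hy : ∀ p k, ρ (yk k) (v1 (fun _ : Fin m => i) ⊗ₜ c p) = 0 := by
    intro p k
    rw [hρt, (v1_rel (D := D) (fun _ : Fin m => i)).2, TensorProduct.zero_tmul]
  obtain ⟨x, p0, h1, h2⟩ := nh_extract i ρ (fun p => v1 (fun _ : Fin m => i) ⊗ₜ c p) he hne
  obtain ⟨x', hx'⟩ := nh_low i ρ (v1 (fun _ : Fin m => i) ⊗ₜ c p0) (he p0) (hy p0)
  refine ⟨x' * x, c p0, ?_, ?_⟩
  · intro h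
    apply h1
    show v1 (fun _ : Fin m => i) ⊗ₜ c p0 = 0
    rw [h, TensorProduct.tmul_zero]
  · rw [← hρ, map_mul, Module.End.mul_apply, ht', h2, hx']

end CA1492
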