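import Mathlib
import Pool.Agent.Lib.MP_ca1492_al.Fr.FreeB
import Pool.Agent.Lib.MP_ca1492_al.Fr.FreeP
import Pool.Agent.Lib.MP_ca1492_al.Fr.FreeX

/-!
# MP_ca1492_al, module Fr/FreeT: the induction step for one block
-/

namespace CA1492

open TensorProduct

variable {D : Dat}

/-- A submodule of `V(w)` which contains the generator is everything. -/
theorem FreeT_top {n : ℕ} (w : Wd D n) (X : Submodule (R D n) (VV w n)) (h : v1 w ∈ X) :
    X = ⊤ := by
  rw [eq_top_iff]
  intro a _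
  obtain ⟨x, rfl⟩ := VIndA_smul w a
  exact X.smul_mem x h

theorem FreeT_nontriv {n : ℕ} (w : Wd D n) : v1 w ≠ 0 := by
  intro h
  have h1 : ∀ a : VV w n, a = 0 := by
    intro a
    obtain ⟨x, rfl⟩ := VIndA_smul w a
    rw [h, smul_zero]
  have : Subsingleton (VV w n) := ⟨fun a b => by rw [h1 a, h1 b]⟩
  have h2 := VIndA_finrank w
  rw [Module.finrank_zero_of_subsingleton] at h2
  exact (Nat.factorial_pos n).ne h2

/-- The criterion for simplicity. -/
theorem FreeT_simple {n : ℕ} (w : Wd D n)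
    (h : ∀ X : Submodule (R D n) (VV w n), ∀ x ∈ X, x ≠ 0 → v1 w ∈ X) :
    IsSimpleModule (R D n) (VV w n) := by
  have hnt : Nontrivial (VV w n) := ⟨⟨v1 w, 0, FreeT_nontriv w⟩⟩
  rw [isSimpleModule_iff]
  refine { exists_pair_ne := ⟨⊥, ⊤, bot_ne_top⟩, eq_bot_or_eq_top := fun X => ?_ }
  by_cases hX : X = ⊥
  · exact Or.inl hX
  · obtain ⟨x, hx, hne⟩ := Submodule.exists_mem_ne_zero_of_ne_bot hX
    exact Or.inr (FreeT_top w X (h X x hx hne))

/-- A nonzero vector has a nonzero component. -/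
theorem FreeT_comp {n : ℕ} (V : Type) [AddCommGroup V] [Module (R D n) V] (x : V) (hx : x ≠ 0) :
    ∃ w : Wd D n, (ew w : R D n) • x ≠ 0 := by
  by_contra hcon
  push Not at hcon
  apply hx
  have h1 : (∑ w : Wd D n, (ew w : R D n)) • x = x := by
    rw [(isRep_R D n).E_sum, one_smul]
  rw [← h1, Finset.sum_smul]
  exact Finset.sum_eq_zero fun w _ => hcon w

theorem FreeT_letters {m k : ℕ} (i : D.J) (u : Wd D k) (x : D.J)
    (hx : x ∈ List.ofFn (Fin.append (fun _ : Fin m => i) u)) : x ∈ i :: List.ofFn u := by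
  obtain ⟨j, rfl⟩ := (List.mem_ofFn' _ _).1 hx
  refine Fin.addCases (fun l => ?_) (fun l => ?_) j
  · rw [Fin.append_left]
    exact List.mem_cons_self
  · rw [Fin.append_right]
    exact List.mem_cons_of_mem _ ((List.mem_ofFn' _ _).2 ⟨l, rfl⟩)

/-- PROOF. M = IndV D m k V(i^m) V(u) ≅ V(i^m u) (`VInd`). Let X ≠ ⊥ be a submodule of M,
x ∈ X nonzero; some `ew w' • x ≠ 0` (E_sum); w' is a permutation of i^m u (transport to
V(i^m u), `wt_VV`); `perm_word` gives x' ∈ X with ew (i^m u) • x' ≠ 0, F = ew (i^m u) • x';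
`first_block`: F = indIn t, t ≠ 0; `extract`: iota (x ⊗ 1) • F = indIn (v1 ⊗ b) ∈ X, b ≠ 0. V(u) is
simple: v1 u = y • b; iota (1 ⊗ y): indIn (v1 ⊗ v1) ∈ X, which generates (`VInd_surj`). -/
theorem simple_block {m k : ℕ} (i : D.J) (u : Wd D k) (hi : ∀ j, u j ≠ i)
    (hf : NoArr D (i :: List.ofFn u)) (hu : IsSimpleModule (R D k) (VV u k)) :
    IsSimpleModule (R D (m + k)) (VV (Fin.append (fun _ : Fin m => i) u) (m + k)) := by
  refine FreeT_simple _ fun X x hx hne => ?_
  have hfw : NoArr D (List.ofFn (Fin.append (fun _ : Fin m => i) u)) := fun a ha b hb =>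
    hf a (FreeT_letters i u a ha) b (FreeT_letters i u b hb)
  -- the word `i^m u` occurs in `X`
  obtain ⟨w', hw'⟩ := FreeT_comp (D := D) (n := m + k) _ x hne
  have hperm := wt_VV _ w' x hw'
  obtain ⟨x', hx', hne'⟩ := perm_word _ X _ _ hperm (hfw.perm hperm.symm) w'
    (Fin.append (fun _ : Fin m => i) u) rfl rfl ⟨x, hx, hw'⟩
  obtain ⟨f, hf1⟩ := VInd_map (fun _ : Fin m => i) u
  have hbij := VInd_bij _ _ f hf1
  obtain ⟨t, ht⟩ := first_block i u hi
    (f ((ew (Fin.append (fun _ : Fin m => i) u) : R D (m + k)) • x')) (by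
      rw [← map_smul, ← mul_smul, (isRep_R D (m + k)).E_mul, if_pos rfl])
  have ht0 : t ≠ 0 := by
    rintro rfl
    rw [map_zero] at ht
    exact hne' (hbij.1 (ht.trans (map_zero f).symm))
  obtain ⟨y, b, hb, hyb⟩ := extract i (VV u k) t ht0
  have hsimp : ∃ z : R D k, z • b = v1 u := by
    have h1 : v1 u ∈ Submodule.span (R D k) {b} := by
      rw [IsSimpleModule.span_singleton_eq_top (R := R D k) hb]
      exact Submodule.mem_top
    exact Submodule.mem_span_singleton.1 h1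
  obtain ⟨z, hz⟩ := hsimp
  have hyt : tens (VV (fun _ : Fin m => i) m) (VV u k) (y ⊗ₜ (1 : R D k)) t =
      v1 (fun _ : Fin m => i) ⊗ₜ b := by
    rw [← hyb]
    clear ht ht0 hyb
    induction t using TensorProduct.induction_on with
    | zero => rw [map_zero, map_zero]
    | tmul a c => rw [tens_tmul, LinearMap.rTensor_tmul, act_apply, one_smul]
    | add a c ha hc => rw [map_add, map_add, ha, hc]
  have hfin : f (iota D m k (1 ⊗ₜ z) • iota D m k (y ⊗ₜ 1) •
      (ew (Fin.append (fun _ : Fin m => i) u) : R D (m + k)) • x') =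
      f (v1 (Fin.append (fun _ : Fin m => i) u)) := by
    rw [map_smul, map_smul, ht, (indIn_facts _ _).1, (indIn_facts _ _).1, hyt, tens_tmul,
      one_smul, hz, hf1]
  rw [← hbij.1 hfin]
  exact X.smul_mem _ (X.smul_mem _ (X.smul_mem _ hx'))

/-- PROOF: V(w) is one-dimensional for n = 0. -/
theorem simple_zero (w : Wd D 0) : IsSimpleModule (R D 0) (VV w 0) := by
  refine FreeT_simple _ fun X x hx hne => ?_
  have h1 := VIndA_finrank w
  rw [Nat.factorial_zero] at h1
  obtain ⟨c, hc⟩ := exists_smul_eq_of_finrank_eq_one h1 hne (v1 w)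
  rw [← hc, ← one_smul (R D 0) x, ← smul_assoc]
  exact X.smul_mem _ hx

end CA1492
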