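import Mathlib
import Pool.Agent.Lib.MP_ca1492_al.Fr.FreeT

/-!
# MP_ca1492_al, module Fr/FreeS: `V(w)` is simple if there are no arrows between the letters of `w`
-/

namespace CA1492

open TensorProduct

variable {D : Dat}

theorem FreeS_finrank {n : ℕ} (w : Wd D n) :
    Module.Finite ℂ (VV w n) ∧ Module.finrank ℂ (VV w n) = n.factorial := by
  obtain ⟨b, -⟩ := VV_basis w
  exact ⟨Module.Finite.of_basis b, by rw [Module.finrank_eq_card_basis b, card_Sq]⟩

theorem FreeS_gen {n : ℕ} (w : Wd D n) (x : VV w n) : ∃ y : R D n, x = y • v1 w := by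
  obtain ⟨y, rfl⟩ := Submodule.Quotient.mk_surjective _ x
  refine ⟨y, ?_⟩
  unfold v1
  rw [← Submodule.Quotient.mk_smul, smul_eq_mul, mul_one]

/-- From one ordering to all.
PROOF. X ≠ ⊥ in V(w'). As in `simple_block` some word of X, hence by `perm_word` the word w is a word
of X; `common_VV` gives s ∈ X; `v1_lift` gives f : V(w) → V(w'), f v1 = s ≠ 0; V(w) is simple, so f is
injective; both have dimension n! (`VV_basis`), so f is surjective, and range f ⊆ X. -/
theorem simple_perm {n : ℕ} (w w' : Wd D n) (hp : (List.ofFn w).Perm (List.ofFn w'))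
    (hf : NoArr D (List.ofFn w)) (h : IsSimpleModule (R D n) (VV w n)) :
    IsSimpleModule (R D n) (VV w' n) := by
  obtain ⟨hfin, hrk⟩ := FreeS_finrank w
  obtain ⟨hfin', hrk'⟩ := FreeS_finrank w'
  have hnt : Nontrivial (VV w' n) := by
    refine (Module.finrank_pos_iff (R := ℂ)).1 ?_
    rw [hrk']
    exact Nat.factorial_pos n
  refine { exists_pair_ne := ⟨⊥, ⊤, bot_ne_top⟩, eq_bot_or_eq_top := fun X => ?_ }
  by_cases hX : X = ⊥
  · exact Or.inl hX
  refine Or.inr ?_
  obtain ⟨x, hx, hx0⟩ := Submodule.exists_mem_ne_zero_of_ne_bot hX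
  -- a word of `X`
  have h1 : ∃ u : Wd D n, (ew u : R D n) • x ≠ 0 := by
    by_contra hcon
    push Not at hcon
    apply hx0
    have h2 : (∑ u : Wd D n, (ew u : R D n)) • x = 0 := by
      rw [Finset.sum_smul]
      exact Finset.sum_eq_zero fun u _ => hcon u
    have h3 : ∑ u : Wd D n, (ew u : R D n) = 1 := (isRep_R D n).E_sum
    rw [h3, one_smul] at h2
    exact h2
  obtain ⟨u, hu⟩ := h1
  have hp1 : (List.ofFn u).Perm (List.ofFn w) := (wt_VV w' u x hu).trans hp.symm
  have h4 := perm_word (VV w' n) X (List.ofFn u) (List.ofFn w) hp1 (hf.perm hp1.symm) u w rfl rfl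
    ⟨x, hx, hu⟩
  obtain ⟨s, hs, hs0, hs1, hs2⟩ := common_VV w' w X h4
  obtain ⟨f, hf1⟩ := v1_lift w (VV w' n) s hs1 hs2
  have hker : LinearMap.ker f = ⊥ := by
    rcases h.eq_bot_or_eq_top (LinearMap.ker f) with h5 | h5
    · exact h5
    · exfalso
      apply hs0
      rw [← hf1]
      exact LinearMap.mem_ker.1 (h5 ▸ Submodule.mem_top)
  have hinj0 : Function.Injective f := LinearMap.ker_eq_bot.1 hker
  have hinj : Function.Injective (clin f) := hinj0
  have hsurj : Function.Surjective (clin f) :=
    (LinearMap.injective_iff_surjective_of_finrank_eq_finrank (hrk.trans hrk'.symm)).1 hinj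
  refine eq_top_iff.2 fun y _ => ?_
  obtain ⟨z, rfl⟩ := hsurj y
  obtain ⟨a, rfl⟩ := FreeS_gen w z
  have h6 : clin f (a • v1 w) = a • s := by
    rw [← hf1]
    exact f.map_smul a (v1 w)
  rw [h6]
  exact X.smul_mem a hs

/-- The letters equal to `i` first. -/
theorem FreeS_split {n : ℕ} (w : Wd D n) (i : D.J) (hi : i ∈ List.ofFn w) :
    ∃ (m k : ℕ) (u : Wd D k), n = m + k ∧ k < n ∧ (∀ j, u j ≠ i) ∧
      (List.ofFn (Fin.append (fun _ : Fin m => i) u)).Perm (List.ofFn w) := by
  have h1 : (List.ofFn w).Perm ((List.ofFn w).filter (fun x => decide (x = i)) ++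
      (List.ofFn w).filter (fun x => !decide (x = i))) :=
    (List.filter_append_perm _ _).symm
  have h2 := h1.length_eq
  rw [List.length_append, List.length_ofFn] at h2
  have h3 : 0 < ((List.ofFn w).filter (fun x => decide (x = i))).length :=
    List.length_pos_of_mem (List.mem_filter.2 ⟨hi, by simp⟩)
  refine ⟨((List.ofFn w).filter (fun x => decide (x = i))).length,
    ((List.ofFn w).filter (fun x => !decide (x = i))).length,
    ((List.ofFn w).filter (fun x => !decide (x = i))).get, h2, by omega, ?_, ?_⟩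
  · intro j hj
    have h4 : ((List.ofFn w).filter (fun x => !decide (x = i))).get j ∈
      (List.ofFn w).filter (fun x => !decide (x = i)) := List.get_mem _ _
    rw [hj] at h4
    simpa using (List.mem_filter.1 h4).2
  · rw [List.ofFn_fin_append, List.ofFn_get, List.ofFn_const]
    refine List.Perm.trans (List.Perm.of_eq ?_) h1.symm
    congr 1
    refine (List.eq_replicate_iff.2 ⟨rfl, fun b hb => ?_⟩).symm
    simpa using (List.mem_filter.1 hb).2

/-- PROOF: strong induction on n. n = 0: `simple_zero`. n > 0: i = w 0, m = the number of indices with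
w j = i, u = the word of the other letters, k < n; the list of `Fin.append (fun _ => i) u` is a
permutation of the list of w (n = m + k, subst). `simple_block`, `simple_perm`. -/
theorem free_simple {n : ℕ} (w : Wd D n) (hf : NoArr D (List.ofFn w)) :
    IsSimpleModule (R D n) (VV w n) := by
  induction n using Nat.strong_induction_on with
  | _ n ih =>
    rcases Nat.eq_zero_or_pos n with h0 | h0
    · subst h0
      exact simple_zero w
    · have hi : w ⟨0, h0⟩ ∈ List.ofFn w := List.mem_ofFn.2 ⟨_, rfl⟩
      generalize w ⟨0, h0⟩ = i at hi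
      obtain ⟨m, k, u, hn, hk, hu, hp⟩ := FreeS_split w i hi
      subst hn
      have hsub : ∀ x ∈ i :: List.ofFn u, x ∈ List.ofFn w := by
        intro x hx
        rcases List.mem_cons.1 hx with rfl | hx
        · exact hi
        · refine hp.mem_iff.1 ?_
          rw [List.ofFn_fin_append]
          exact List.mem_append_right _ hx
      have hf1 : NoArr D (i :: List.ofFn u) := fun x hx y hy => hf x (hsub x hx) y (hsub y hy)
      have hf2 : NoArr D (List.ofFn u) := fun x hx y hy =>
        hf1 x (List.mem_cons_of_mem _ hx) y (List.mem_cons_of_mem _ hy)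
      exact simple_perm _ w hp (hf.perm hp.symm) (simple_block i u hu hf1 (ih k hk u hf2))

end CA1492
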